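import Pool.Agent.Helper15.DAF.Stmts

set_option autoImplicit false

open AlgebraicGeometry CategoryTheory TopologicalSpace Opposite

namespace Pool.Agent.Helper15.DAF

namespace S38

variable {X : Scheme.{0}} [IsIntegral X] (s : X ⟶ Spec (CommRingCat.of ℂ))

/-- the map from the constants to the functions on `V` -/
noncomputable def cst (V : Aff X) : ℂ →+* Γ(X, V.U) :=
  ((s.appLE ⊤ V.U le_top).hom).comp (Scheme.ΓSpecIso (CommRingCat.of ℂ)).inv.hom

theorem ev_cst (V : Aff X) (c : ℂ) : ev s V (cst s V c) = constHom s c := by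
  change (X.germToFunctionField V.U).hom ((s.appLE ⊤ V.U le_top).hom _) =
    (X.germToFunctionField ⊤).hom ((s.appTop).hom _)
  rw [Scheme.Hom.appLE]
  exact X.presheaf.germ_res_apply (homOfLE le_top) (genericPoint X) _ _

theorem cst_finiteType [LocallyOfFiniteType s] (V : Aff X) : (cst s V).FiniteType := by
  have h1 : (s.appLE ⊤ V.U le_top).hom.FiniteType :=
    s.finiteType_appLE (isAffineOpen_top _) V.aff le_top
  refine RingHom.FiniteType.comp h1 (RingHom.FiniteType.of_surjective _ ?_)
  intro a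
  refine ⟨(Scheme.ΓSpecIso (CommRingCat.of ℂ)).hom.hom a, ?_⟩
  rw [← CommRingCat.comp_apply]
  simp

end S38

/-- row SFG -/
theorem st_SFG : ST_SFG := by
  intro X _ s _ V
  letI : Algebra ℂ Γ(X, V.U) := (S38.cst s V).toAlgebra
  have hft : Algebra.FiniteType ℂ Γ(X, V.U) := S38.cst_finiteType s V
  let F : Γ(X, V.U) →ₐ[ℂ] FF s :=
    { ev s V with
      commutes' := fun c => S38.ev_cst s V c }
  have h2 : (F.range).FG := by
    rw [← Algebra.map_top]
    exact (hft.out).map F
  have h3 : O s V = F.range := by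
    ext a
    constructor
    · rintro ⟨f, hf⟩
      exact ⟨f, hf⟩
    · rintro ⟨f, hf⟩
      exact ⟨f, hf⟩
  rw [h3]
  exact h2

end Pool.Agent.Helper15.DAF
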